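import Mathlib

/-!
# A branch group with an automorphism that is not induced by the tree

`V` is the vertex set of the binary tree (words in the letters `0, 1`).  `L` is the group of all
automorphisms `g` of the binary tree such that `sw g sw` again comes from a tree automorphism, where
`sw` swaps the first two letters of all words of length at least two.
-/

set_option autoImplicit false

namespace Pool.Agent.E8helper50.Branch

/-- vertices of the binary tree -/
abbrev V : Type := {l : List ℕ // ∀ i (h : i < l.length), l.get ⟨i, h⟩ < 2}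

theorem lt_iff (l : List ℕ) :
    (∀ i (h : i < l.length), l.get ⟨i, h⟩ < 2) ↔ ∀ x ∈ l, x < 2 := by
  constructor
  · intro H x hx
    obtain ⟨i, hi⟩ := List.get_of_mem hx
    rw [← hi]
    exact H i.1 i.2
  · intro H i h
    exact H _ (List.get_mem l ⟨i, h⟩)

/-- `g` preserves the prefix relation in both directions -/
def P (g : Equiv.Perm V) : Prop := ∀ v w : V, List.IsPrefix v.1 w.1 ↔ List.IsPrefix (g v).1 (g w).1

theorem P.one : P 1 := fun _ _ => Iff.rfl

theorem P.mul {g h : Equiv.Perm V} (hg : P g) (hh : P h) : P (g * h) := fun v w =>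
  (hh v w).trans (hg _ _)

theorem P.inv {g : Equiv.Perm V} (hg : P g) : P g⁻¹ := fun v w => by
  have := hg (g⁻¹ v) (g⁻¹ w)
  simpa using this.symm

theorem P.of_forward {g : Equiv.Perm V}
    (h1 : ∀ v w : V, List.IsPrefix v.1 w.1 → List.IsPrefix (g v).1 (g w).1)
    (h2 : ∀ v w : V, List.IsPrefix v.1 w.1 → List.IsPrefix (g⁻¹ v).1 (g⁻¹ w).1) : P g := by
  intro v w
  refine ⟨h1 v w, fun h => ?_⟩
  have := h2 _ _ h
  simpa using this

/-- the prefix of length `n` -/
def tk (n : ℕ) (v : V) : V := ⟨v.1.take n, by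
  rw [lt_iff]
  intro x hx
  exact (lt_iff _).1 v.2 x (List.mem_of_mem_take hx)⟩

theorem tk_prefix (n : ℕ) (v : V) : List.IsPrefix (tk n v).1 v.1 := List.take_prefix _ _

theorem P.le_length {g : Equiv.Perm V} (hg : P g) : ∀ (n : ℕ) (v : V), v.1.length = n →
    n ≤ (g v).1.length := by
  intro n
  induction n with
  | zero => intro v _; exact Nat.zero_le _
  | succ n ih =>
    intro v hv
    have h1 : (tk n v).1.length = n := by
      simp [tk, hv]
    have h2 := ih _ h1
    have h3 : List.IsPrefix (g (tk n v)).1 (g v).1 := (hg _ _).1 (tk_prefix n v)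
    have h4 : g (tk n v) ≠ g v := by
      intro h
      have := g.injective h
      rw [← this] at hv
      omega
    have h5 := h3.length_le
    rcases Nat.lt_or_ge (g (tk n v)).1.length (g v).1.length with h6 | h6
    · omega
    · exact absurd (Subtype.ext (h3.eq_of_length (le_antisymm h5 h6))) h4

theorem P.length {g : Equiv.Perm V} (hg : P g) (v : V) : (g v).1.length = v.1.length := by
  refine le_antisymm ?_ (hg.le_length _ v rfl)
  have := hg.inv.le_length _ (g v) rfl
  simpa using this

/-- a prefix of the image is the image of the prefix -/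
theorem P.take {g : Equiv.Perm V} (hg : P g) (n : ℕ) (v : V) : tk n (g v) = g (tk n v) := by
  have h1 : List.IsPrefix (g (tk n v)).1 (g v).1 := (hg _ _).1 (tk_prefix n v)
  have h2 : List.IsPrefix (tk n (g v)).1 (g v).1 := tk_prefix n _
  apply Subtype.ext
  have h3 : (g (tk n v)).1.length = (tk n (g v)).1.length := by
    rw [hg.length]
    simp [tk, hg.length]
  exact (List.prefix_of_prefix_length_le h2 h1 h3.symm.le).eq_of_length h3.symm

/-- two prefix preserving permutations which agree on words of length at least two are equal -/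
theorem P.ext_two {g h : Equiv.Perm V} (hg : P g) (hh : P h)
    (H : ∀ v : V, 2 ≤ v.1.length → g v = h v) : g = h := by
  ext1 v
  rcases Nat.lt_or_ge v.1.length 2 with h2 | h2
  · -- extend `v` by two letters
    have hw : ∀ i (hi : i < (v.1 ++ [0, 0]).length), (v.1 ++ [0, 0]).get ⟨i, hi⟩ < 2 := by
      rw [lt_iff]
      intro x hx
      rcases List.mem_append.1 hx with hx | hx
      · exact (lt_iff _).1 v.2 x hx
      · simp at hx; omega
    let w : V := ⟨v.1 ++ [0, 0], hw⟩
    have hwv : tk v.1.length w = v := by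
      apply Subtype.ext
      simp [tk, w]
    rw [← hwv, ← hg.take, ← hh.take, H w (by simp [w])]
  · exact H v h2

theorem two_le (l : List ℕ) (h : 2 ≤ l.length) : ∃ x y l', l = x :: y :: l' := by
  match l, h with
  | x :: y :: l, _ => exact ⟨x, y, l, rfl⟩

/-! ### swapping the first two letters -/

/-- swap the first two letters -/
def swl : List ℕ → List ℕ
  | x :: y :: l => y :: x :: l
  | l => l

theorem swl_swl (l : List ℕ) : swl (swl l) = l := by
  match l with
  | [] => rfl
  | [x] => rfl
  | x :: y :: l => rfl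

theorem swl_length (l : List ℕ) : (swl l).length = l.length := by
  match l with
  | [] => rfl
  | [x] => rfl
  | x :: y :: l => rfl

theorem mem_swl (l : List ℕ) (z : ℕ) : z ∈ swl l ↔ z ∈ l := by
  match l with
  | [] => rfl
  | [x] => rfl
  | x :: y :: l => simp [swl]; tauto

/-- the swap on vertices -/
def sw : Equiv.Perm V where
  toFun v := ⟨swl v.1, by
    rw [lt_iff]; intro x hx; exact (lt_iff _).1 v.2 x ((mem_swl _ _).1 hx)⟩
  invFun v := ⟨swl v.1, by
    rw [lt_iff]; intro x hx; exact (lt_iff _).1 v.2 x ((mem_swl _ _).1 hx)⟩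
  left_inv v := Subtype.ext (swl_swl _)
  right_inv v := Subtype.ext (swl_swl _)

theorem sw_val (v : V) : (sw v).1 = swl v.1 := rfl

theorem sw_sw (v : V) : sw (sw v) = v := Subtype.ext (swl_swl _)

theorem sw_length (v : V) : (sw v).1.length = v.1.length := swl_length _

/-- `h` extends `sw g sw` -/
def R (g h : Equiv.Perm V) : Prop := ∀ v : V, 2 ≤ v.1.length → h v = sw (g (sw v))

theorem R.symm {g h : Equiv.Perm V} (H : R g h) : R h g := by
  intro v hv
  rw [H (sw v) (by rw [sw_length]; exact hv), sw_sw, sw_sw]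

theorem R.mul {g h g' h' : Equiv.Perm V} (hh' : P h') (H : R g h) (H' : R g' h') :
    R (g * g') (h * h') := by
  intro v hv
  rw [Equiv.Perm.mul_apply, H (h' v) (by rw [hh'.length]; exact hv), H' v hv, sw_sw,
    Equiv.Perm.mul_apply]

theorem R.inv {g h : Equiv.Perm V} (hg : P g) (H : R g h) : R g⁻¹ h⁻¹ := by
  intro v hv
  have h1 : 2 ≤ (sw (g⁻¹ (sw v))).1.length := by
    rw [sw_length, hg.inv.length, sw_length]; exact hv
  have h2 := H _ h1
  rw [sw_sw] at h2
  have h3 : g (g⁻¹ (sw v)) = sw v := by simp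
  rw [h3, sw_sw] at h2
  rw [Equiv.Perm.inv_eq_iff_eq, h2]

theorem R.unique {g h h' : Equiv.Perm V} (hh : P h) (hh' : P h') (H : R g h) (H' : R g h') :
    h = h' :=
  hh.ext_two hh' fun v hv => (H v hv).trans (H' v hv).symm

/-- The group `L`. -/
def L : Subgroup (Equiv.Perm V) where
  carrier := {g | P g ∧ ∃ h, P h ∧ R g h}
  mul_mem' := by
    rintro a b ⟨ha, a', ha', Ra⟩ ⟨hb, b', hb', Rb⟩
    exact ⟨ha.mul hb, a' * b', ha'.mul hb', Ra.mul hb' Rb⟩
  one_mem' := ⟨P.one, 1, P.one, fun v _ => by simp [sw_sw]⟩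
  inv_mem' := by
    rintro a ⟨ha, a', ha', Ra⟩
    exact ⟨ha.inv, a'⁻¹, ha'.inv, Ra.inv ha⟩

/-- the swapped element -/
noncomputable def phi0 (g : L) : L :=
  ⟨Classical.choose g.2.2, (Classical.choose_spec g.2.2).1, g.1, g.2.1,
    (Classical.choose_spec g.2.2).2.symm⟩

theorem phi0_spec (g : L) : R g.1 (phi0 g).1 := (Classical.choose_spec g.2.2).2

theorem phi0_eq {g h : L} (H : R g.1 h.1) : phi0 g = h :=
  Subtype.ext ((phi0_spec g).unique (phi0 g).2.1 h.2.1 H)

/-- the automorphism of `L` -/
noncomputable def phi : L ≃* L where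
  toFun := phi0
  invFun := phi0
  left_inv g := phi0_eq (phi0_spec g).symm
  right_inv g := phi0_eq (phi0_spec g).symm
  map_mul' a b := phi0_eq ((phi0_spec a).mul (phi0 b).2.1 (phi0_spec b))

/-! ### digit-wise translations -/

/-- add the digits of `c` -/
def tr (c : ℕ → ℕ) (l : List ℕ) : List ℕ := l.mapIdx fun i x => (x + c i) % 2

theorem tr_lt (c : ℕ → ℕ) (l : List ℕ) : ∀ x ∈ tr c l, x < 2 := by
  intro x hx
  unfold tr at hx
  rw [List.mem_mapIdx] at hx
  obtain ⟨i, hi, rfl⟩ := hx
  exact Nat.mod_lt _ (by norm_num)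

theorem tr_tr (c : ℕ → ℕ) (l : List ℕ) (hl : ∀ x ∈ l, x < 2) : tr c (tr c l) = l := by
  unfold tr
  apply List.ext_getElem
  · simp
  · intro i h1 h2
    have := hl _ (List.getElem_mem h2)
    simp
    omega

theorem tr_append (c : ℕ → ℕ) (l l' : List ℕ) : tr c l <+: tr c (l ++ l') := by
  unfold tr
  rw [List.mapIdx_append]
  exact List.prefix_append _ _

/-- the translation -/
def T (c : ℕ → ℕ) : Equiv.Perm V where
  toFun v := ⟨tr c v.1, (lt_iff _).2 (tr_lt c v.1)⟩
  invFun v := ⟨tr c v.1, (lt_iff _).2 (tr_lt c v.1)⟩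
  left_inv v := Subtype.ext (tr_tr c _ ((lt_iff _).1 v.2))
  right_inv v := Subtype.ext (tr_tr c _ ((lt_iff _).1 v.2))

theorem T_P (c : ℕ → ℕ) : P (T c) := by
  have key : ∀ v w : V, List.IsPrefix v.1 w.1 → List.IsPrefix (tr c v.1) (tr c w.1) := by
    rintro v w ⟨l, hl⟩
    rw [← hl]
    exact tr_append c _ _
  exact P.of_forward key key

theorem T_R (c : ℕ → ℕ) : R (T c) (T (fun i => c (if i = 0 then 1 else if i = 1 then 0 else i))) := by
  rintro ⟨v, hv⟩ h2
  apply Subtype.ext
  change tr _ v = swl (tr c (swl v))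
  obtain ⟨x, y, l, rfl⟩ := two_le v h2
  simp [tr, swl, List.mapIdx_cons]

theorem T_mem (c : ℕ → ℕ) : T c ∈ L := ⟨T_P c, _, T_P _, T_R c⟩

theorem trans (v w : V) (h : v.1.length = w.1.length) : ∃ g ∈ L, g v = w := by
  refine ⟨T (fun i => v.1.getD i 0 + w.1.getD i 0), T_mem _, ?_⟩
  apply Subtype.ext
  change tr _ v.1 = w.1
  unfold tr
  apply List.ext_getElem
  · simpa using h
  · intro i h1 h2
    have h3 : i < v.1.length := by omega
    have a1 := (lt_iff _).1 v.2 _ (List.getElem_mem h3)
    have a2 := (lt_iff _).1 w.2 _ (List.getElem_mem h2)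
    simp [List.getD, h3, h2]
    omega

/-! ### elements fixing the second level are in `L` -/

theorem mem_of_fix {g : Equiv.Perm V} (hg : P g) (hfix : ∀ v : V, v.1.length = 2 → g v = v) :
    g ∈ L := by
  have fwd : ∀ g : Equiv.Perm V, P g → (∀ v : V, v.1.length = 2 → g v = v) →
      ∀ v w : V, List.IsPrefix v.1 w.1 →
        List.IsPrefix (sw (g (sw v))).1 (sw (g (sw w))).1 := by
    intro g hg hfix v w hvw
    have small : ∀ u : V, u.1.length ≤ 2 → g u = u := by
      intro u hu
      have hw : ∀ i (hi : i < (u.1 ++ [0, 0]).length), (u.1 ++ [0, 0]).get ⟨i, hi⟩ < 2 := by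
        rw [lt_iff]
        intro x hx
        rcases List.mem_append.1 hx with hx | hx
        · exact (lt_iff _).1 u.2 x hx
        · simp at hx; omega
      let w : V := ⟨u.1 ++ [0, 0], hw⟩
      have h1 : tk u.1.length (tk 2 w) = u := by
        apply Subtype.ext
        simp [tk, w, List.take_take, min_eq_left hu]
      rw [← h1, ← hg.take, hfix (tk 2 w) (by simp [tk, w])]
    rcases Nat.lt_or_ge v.1.length 2 with h2 | h2
    · -- short words
      have e1 : sw (g (sw v)) = v := by
        rw [small _ (by rw [sw_length]; omega), sw_sw]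
      rw [e1]
      rcases Nat.lt_or_ge w.1.length 2 with h3 | h3
      · rw [small _ (by rw [sw_length]; omega), sw_sw]
        exact hvw
      · -- the image of `w` has the same first two letters
        have h4 : tk 2 (g (sw w)) = tk 2 (sw w) := by
          rw [hg.take, hfix _ (by simp [tk, sw_length, h3])]
        have h5 : List.IsPrefix v.1 (tk 2 w).1 :=
          List.prefix_of_prefix_length_le hvw (tk_prefix _ _) (by simp [tk]; omega)
        have h6 : tk 2 (sw (g (sw w))) = tk 2 w := by
          have h7 : ∀ u : V, 2 ≤ u.1.length → tk 2 (sw u) = sw (tk 2 u) := by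
            rintro ⟨u, hu⟩ h
            apply Subtype.ext
            obtain ⟨x, y, l, rfl⟩ := two_le u h
            simp [tk, sw, swl]
          rw [h7 _ (by rw [hg.length, sw_length]; exact h3), h4, h7 _ h3, sw_sw]
        rw [← h6] at h5
        exact h5.trans (tk_prefix _ _)
    · have sp : ∀ a b : V, 2 ≤ a.1.length → List.IsPrefix a.1 b.1 →
          List.IsPrefix (sw a).1 (sw b).1 := by
        rintro ⟨a, ha⟩ ⟨b, hb⟩ h ⟨l, hl⟩
        obtain ⟨x, y, a', rfl⟩ := two_le a h
        simp only [List.cons_append] at hl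
        subst hl
        exact ⟨l, by simp [sw, swl]⟩
      apply sp _ _ (by rw [hg.length, sw_length]; exact h2)
      exact (hg _ _).1 (sp _ _ h2 hvw)
  refine ⟨hg, sw * g * sw, ?_, fun v _ => rfl⟩
  apply P.of_forward
  · intro v w h
    exact fwd g hg hfix v w h
  · intro v w h
    have e : (sw * g * sw)⁻¹ = sw * g⁻¹ * sw := by
      have : sw⁻¹ = sw := by
        ext1 v
        rw [Equiv.Perm.inv_eq_iff_eq, sw_sw]
      rw [mul_inv_rev, mul_inv_rev, this, mul_assoc]
    rw [e]
    refine fwd g⁻¹ hg.inv ?_ v w h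
    intro v hv
    rw [Equiv.Perm.inv_eq_iff_eq, hfix v hv]

/-! ### restriction to a subtree -/

open Classical in
/-- act as `g` below `u` and trivially elsewhere -/
noncomputable def restr (u : V) (g : Equiv.Perm V) (hg : P g) (hu : g u = u) : Equiv.Perm V where
  toFun v := if List.IsPrefix u.1 v.1 then g v else v
  invFun v := if List.IsPrefix u.1 v.1 then g⁻¹ v else v
  left_inv v := by
    by_cases h : List.IsPrefix u.1 v.1
    · have h2 : List.IsPrefix u.1 (g v).1 := by
        have := (hg u v).1 h
        rwa [hu] at this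
      simp [h, h2]
    · simp [h]
  right_inv v := by
    by_cases h : List.IsPrefix u.1 v.1
    · have hu' : g⁻¹ u = u := by rw [Equiv.Perm.inv_eq_iff_eq, hu]
      have h2 : List.IsPrefix u.1 (g⁻¹ v).1 := by
        have := (hg.inv u v).1 h
        rwa [hu'] at this
      have h3 : g (g⁻¹ v) = v := by simp
      beta_reduce
      rw [if_pos h, if_pos h2, h3]
    · simp [h]

theorem restr_pos {u : V} {g : Equiv.Perm V} (hg : P g) (hu : g u = u) {v : V}
    (h : List.IsPrefix u.1 v.1) : restr u g hg hu v = g v := by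
  simp [restr, h]

theorem restr_neg {u : V} {g : Equiv.Perm V} (hg : P g) (hu : g u = u) {v : V}
    (h : ¬ List.IsPrefix u.1 v.1) : restr u g hg hu v = v := by
  simp [restr, h]

theorem restr_inv {u : V} {g : Equiv.Perm V} (hg : P g) (hu : g u = u) (hu' : g⁻¹ u = u) :
    (restr u g hg hu)⁻¹ = restr u g⁻¹ hg.inv hu' := by
  ext1 v
  rfl

theorem restr_P {u : V} {g : Equiv.Perm V} (hg : P g) (hu : g u = u) :
    P (restr u g hg hu) := by
  have fwd : ∀ (g : Equiv.Perm V) (hg : P g) (hu : g u = u) (v w : V),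
      List.IsPrefix v.1 w.1 → List.IsPrefix (restr u g hg hu v).1 (restr u g hg hu w).1 := by
    intro g hg hu v w h
    by_cases h1 : List.IsPrefix u.1 v.1
    · rw [restr_pos hg hu h1, restr_pos hg hu (h1.trans h)]
      exact (hg _ _).1 h
    · rw [restr_neg hg hu h1]
      by_cases h2 : List.IsPrefix u.1 w.1
      · rw [restr_pos hg hu h2]
        have h3 : List.IsPrefix v.1 u.1 := by
          rcases List.prefix_or_prefix_of_prefix h h2 with h3 | h3
          · exact h3
          · exact absurd h3 h1
        have h4 : List.IsPrefix u.1 (g w).1 := by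
          have := (hg u w).1 h2
          rwa [hu] at this
        exact h3.trans h4
      · rw [restr_neg hg hu h2]
        exact h
  apply P.of_forward (fwd g hg hu)
  have hu' : g⁻¹ u = u := by rw [Equiv.Perm.inv_eq_iff_eq, hu]
  rw [restr_inv hg hu hu']
  exact fwd g⁻¹ hg.inv hu'

theorem fix_le {g : Equiv.Perm V} (hg : P g) {N : ℕ} (hfix : ∀ v : V, v.1.length = N → g v = v)
    (u : V) (hu : u.1.length ≤ N) : g u = u := by
  have hw : ∀ i (hi : i < (u.1 ++ List.replicate N 0).length),
      (u.1 ++ List.replicate N 0).get ⟨i, hi⟩ < 2 := by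
    rw [lt_iff]
    intro x hx
    rcases List.mem_append.1 hx with hx | hx
    · exact (lt_iff _).1 u.2 x hx
    · have := List.eq_of_mem_replicate hx
      omega
  let w : V := ⟨u.1 ++ List.replicate N 0, hw⟩
  have h1 : tk u.1.length (tk N w) = u := by
    apply Subtype.ext
    simp [tk, w, List.take_take, min_eq_left hu]
  rw [← h1, ← hg.take, hfix (tk N w) (by simp [tk, w])]

/-- the elements of `L` supported below one vertex of level `n` -/
def S (n : ℕ) : Set (Equiv.Perm V) :=
  {g | g ∈ L ∧ ∃ u : V, u.1.length = n ∧ ∀ v : V, ¬ List.IsPrefix u.1 v.1 → g v = v}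

theorem mem_closure_of_supp {n N : ℕ} (hn : n ≤ N) (hN : 2 ≤ N) (s : Finset V) :
    (∀ u ∈ s, u.1.length = n) → ∀ g : Equiv.Perm V, P g →
    (∀ v : V, v.1.length = N → g v = v) →
    (∀ v : V, g v ≠ v → ∃ u ∈ s, List.IsPrefix u.1 v.1) → g ∈ Subgroup.closure (S n) := by
  classical
  induction s using Finset.induction_on with
  | empty =>
    intro _ g _ _ h
    have : g = 1 := by
      ext1 v
      by_contra hv
      obtain ⟨u, hu, _⟩ := h v hv
      exact absurd hu (Finset.notMem_empty u)
    rw [this]
    exact Subgroup.one_mem _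
  | insert u s hus ih =>
    intro hs g hg hfix h
    have hlen : u.1.length = n := hs u (Finset.mem_insert_self u s)
    have hu : g u = u := fix_le hg hfix u (by omega)
    set r := restr u g hg hu with hr
    have hrP : P r := restr_P hg hu
    have hrfix : ∀ v : V, v.1.length = N → r v = v := by
      intro v hv
      by_cases h1 : List.IsPrefix u.1 v.1
      · rw [hr, restr_pos hg hu h1, hfix v hv]
      · rw [hr, restr_neg hg hu h1]
    have hrS : r ∈ S n := by
      refine ⟨mem_of_fix hrP fun v hv => fix_le hrP hrfix v (by omega), u, hlen, ?_⟩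
      intro v hv
      rw [hr, restr_neg hg hu hv]
    have h2 : r⁻¹ * g ∈ Subgroup.closure (S n) := by
      apply ih (fun u' hu' => hs u' (Finset.mem_insert_of_mem hu')) _ (hrP.inv.mul hg)
      · intro v hv
        rw [Equiv.Perm.mul_apply, hfix v hv, Equiv.Perm.inv_eq_iff_eq, hrfix v hv]
      · intro v hv
        rw [Equiv.Perm.mul_apply, Ne, Equiv.Perm.inv_eq_iff_eq] at hv
        by_cases h1 : List.IsPrefix u.1 v.1
        · rw [hr, restr_pos hg hu h1] at hv
          exact absurd rfl hv
        · rw [hr, restr_neg hg hu h1] at hv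
          obtain ⟨u', hu', h3⟩ := h v hv
          rcases Finset.mem_insert.1 hu' with h4 | h4
          · rw [h4] at h3
            exact absurd h3 h1
          · exact ⟨u', h4, h3⟩
    have : g = r * (r⁻¹ * g) := by group
    rw [this]
    exact Subgroup.mul_mem _ (Subgroup.subset_closure hrS) h2

theorem finite_level (n : ℕ) : Finite {u : V // u.1.length = n} := by
  apply Finite.of_injective (fun u : {u : V // u.1.length = n} =>
    (fun i : Fin n => (⟨u.1.1.getD i 0 % 2, Nat.mod_lt _ (by norm_num)⟩ : Fin 2)))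
  rintro ⟨⟨u, hu⟩, hu'⟩ ⟨⟨v, hv⟩, hv'⟩ h
  apply Subtype.ext
  apply Subtype.ext
  simp only at hu' hv'
  apply List.ext_getElem
  · simp only; omega
  · intro i h1 h2
    simp only at h1 h2 ⊢
    have a1 := (lt_iff _).1 hu _ (List.getElem_mem h1)
    have a2 := (lt_iff _).1 hv _ (List.getElem_mem h2)
    have h3 := congrFun h ⟨i, by omega⟩
    simp [List.getD, h1, h2] at h3
    omega

theorem mem_closure_of_fix {n N : ℕ} (hn : n ≤ N) (hN : 2 ≤ N) {g : Equiv.Perm V} (hg : P g)
    (hfix : ∀ v : V, v.1.length = N → g v = v) : g ∈ Subgroup.closure (S n) := by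
  classical
  have h0 := finite_level n
  have hf : {u : V | u.1.length = n}.Finite := Set.finite_coe_iff.1 h0
  refine mem_closure_of_supp hn hN hf.toFinset (by simp) g hg hfix ?_
  intro v hv
  have h1 : N < v.1.length := by
    by_contra h
    exact hv (fix_le hg hfix v (by omega))
  refine ⟨tk n v, ?_, tk_prefix n v⟩
  rw [Set.Finite.mem_toFinset, Set.mem_ofPred_eq]
  simp [tk]
  omega

instance act (N : ℕ) : MulAction L {v : V // v.1.length = N} where
  smul g v := ⟨g.1 v.1, by rw [g.2.1.length]; exact v.2⟩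
  one_smul v := rfl
  mul_smul g h v := rfl

theorem index_ne_zero (n : ℕ) : ((Subgroup.closure (S n)).subgroupOf L).index ≠ 0 := by
  have hfin := finite_level (n + 2)
  have h1 : (MulAction.toPermHom L {v : V // v.1.length = n + 2}).ker ≤
      (Subgroup.closure (S n)).subgroupOf L := by
    intro g hg
    rw [Subgroup.mem_subgroupOf]
    refine mem_closure_of_fix (N := n + 2) (by omega) (by omega) g.2.1 ?_
    intro v hv
    have h2 := Equiv.congr_fun (MonoidHom.mem_ker.1 hg) ⟨v, hv⟩
    exact congrArg Subtype.val h2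
  have h2 := Subgroup.finiteIndex_of_le h1
  exact h2.index_ne_zero

/-! ### the automorphism is not induced by a tree automorphism -/

/-- the vertex with the given letters -/
def mk3 (x y : ℕ) (hx : x < 2) (hy : y < 2) : V := ⟨[x, y], by
  rw [lt_iff]; intro z hz; simp at hz; omega⟩

theorem main (σ : Equiv.Perm V) (hσ : P σ)
    (H : ∀ g : L, ((phi g : L) : Equiv.Perm V) = σ * (g : Equiv.Perm V) * σ⁻¹) : False := by
  -- flip the third letter
  let t : Equiv.Perm V := T (fun i => if i = 2 then 1 else 0)
  have htP : P t := T_P _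
  have htfix : ∀ v : V, v.1.length = 2 → t v = v := by
    rintro ⟨v, hv⟩ h2
    apply Subtype.ext
    change tr _ v = v
    simp only at h2
    obtain ⟨x, y, l, rfl⟩ := two_le v h2.ge
    simp only [List.length_cons] at h2
    obtain rfl : l = [] := List.eq_nil_of_length_eq_zero (by omega)
    have h3 := (lt_iff _).1 hv
    have := h3 x (by simp)
    have := h3 y (by simp)
    simp [tr]
    omega
  have key : ∀ (x y : ℕ) (hx : x < 2) (hy : y < 2) (w : V), w.1 = [x, y, 0] →
      List.IsPrefix [y, x] (σ w).1 := by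
    intro x y hx hy w hw
    let u : V := mk3 x y hx hy
    have hu : t u = u := htfix _ rfl
    let r := restr u t htP hu
    have hrP : P r := restr_P htP hu
    have hrL : r ∈ L := by
      refine mem_of_fix hrP fun v hv => ?_
      by_cases h1 : List.IsPrefix u.1 v.1
      · change restr u t htP hu v = v
        rw [restr_pos htP hu h1, htfix v hv]
      · change restr u t htP hu v = v
        rw [restr_neg htP hu h1]
    have h1 := H ⟨r, hrL⟩
    have h2 : r w ≠ w := by
      have : List.IsPrefix u.1 w.1 := by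
        rw [hw]
        exact ⟨[0], rfl⟩
      change restr u t htP hu w ≠ w
      rw [restr_pos htP hu this]
      intro h
      have h3 : tr (fun i => if i = 2 then 1 else 0) w.1 = w.1 := congrArg Subtype.val h
      rw [hw] at h3
      simp [tr] at h3
    have h3 : ((phi ⟨r, hrL⟩ : L) : Equiv.Perm V) (σ w) ≠ σ w := by
      rw [h1]
      have h0 : σ⁻¹ (σ w) = w := by simp
      simp only [Equiv.Perm.mul_apply]
      rw [h0]
      intro h
      exact h2 (σ.injective h)
    have hlen : (σ w).1.length = 3 := by rw [hσ.length, hw]; rfl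
    have h4 : ((phi ⟨r, hrL⟩ : L) : Equiv.Perm V) (σ w) = sw (r (sw (σ w))) :=
      phi0_spec ⟨r, hrL⟩ (σ w) (by omega)
    rw [h4] at h3
    have h5 : List.IsPrefix u.1 (sw (σ w)).1 := by
      by_contra h
      apply h3
      change sw (restr u t htP hu (sw (σ w))) = σ w
      rw [restr_neg htP hu h, sw_sw]
    obtain ⟨l, hl⟩ := h5
    have h6 : (σ w).1 = swl (u.1 ++ l) := by
      rw [hl, sw_val, swl_swl]
    rw [h6]
    exact ⟨l, rfl⟩
  have hv : ∀ x y : ℕ, x < 2 → y < 2 → ∀ i (h : i < [x, y, 0].length),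
      [x, y, 0].get ⟨i, h⟩ < 2 := by
    intro x y hx hy
    rw [lt_iff]; intro z hz; simp at hz; omega
  let a : V := ⟨[0, 0, 0], hv 0 0 (by norm_num) (by norm_num)⟩
  let b : V := ⟨[0, 1, 0], hv 0 1 (by norm_num) (by norm_num)⟩
  have ha := key 0 0 (by norm_num) (by norm_num) a rfl
  have hb := key 0 1 (by norm_num) (by norm_num) b rfl
  have hab : tk 1 a = tk 1 b := rfl
  have h1 : tk 1 (σ a) = tk 1 (σ b) := by
    rw [hσ.take, hσ.take, hab]
  obtain ⟨l, hl⟩ := ha
  obtain ⟨l', hl'⟩ := hb
  have h2 := congrArg Subtype.val h1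
  simp only [tk] at h2
  rw [← hl, ← hl'] at h2
  simp at h2

end Pool.Agent.E8helper50.Branch
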